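import Pool.Agent.Lib.MP_fbe6c8_co.Main

set_option autoImplicit false

namespace Pool.Agent.Results.MP_fbe6c8_co.CubicHalinTwoToneSix

open Pool.Agent.Lib.MP_fbe6c8_co

/-- Every cubic Halin graph of order at least six is 2-tone 6-colourable. -/
theorem result : ∀ (V : Type*) [Finite V] (G : SimpleGraph V),
    IsHalin G → IsCubic G → 6 ≤ Nat.card V → ToneColorable G 2 6 := by
  intro V _ G hH hcub hcard
  exact halin_tone G hH hcub hcard

end Pool.Agent.Results.MP_fbe6c8_co.CubicHalinTwoToneSix
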